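import Pool.Agent.H20.SM.TP
import Pool.Agent.H56.BV.CL
import Pool.Agent.H58.BV.PM

/-!
# Arithmetic progressions (row APF)
-/

set_option autoImplicit false

open NumberField NumberField.InfinitePlace Complex Filter Topology

namespace Pool.Agent.H95.SM

open Pool.Agent.H20.SM
open Pool.Agent.H30.BV (cv DS TX wx WX NX)

section

variable (F : Type) [Field F] [NumberField F]

/-- residue classes by characters -/
theorem cl_id (d : ℕ) [NeZero d] (X : ℝ) :
    (d.totient : ℂ) *
      ((∑ n ∈ (Finset.Icc 1 (NX X)).filter (fun n : ℕ => (n : ZMod d) = 1),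
        wx X n * gF F n : ℝ) : ℂ) =
      ∑ χ : DirichletCharacter ℂ d, TX X (gc F χ) := by
  have h1 : ∀ χ : DirichletCharacter ℂ d, TX X (gc F χ) =
      ∑ n ∈ Finset.Icc 1 (NX X), ((wx X n * gF F n : ℝ) : ℂ) *
        (χ (1 : ZMod d)⁻¹ * χ (n : ZMod d)) := by
    intro χ
    rw [TX]
    refine Finset.sum_congr rfl fun n _ => ?_
    rw [gc, cv, ZMod.inv_one, map_one, one_mul]
    push_cast
    ring
  rw [Finset.sum_congr rfl fun χ _ => h1 χ, Finset.sum_comm]
  have h2 : ∀ n ∈ Finset.Icc 1 (NX X), ∑ χ : DirichletCharacter ℂ d,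
      ((wx X n * gF F n : ℝ) : ℂ) * (χ (1 : ZMod d)⁻¹ * χ (n : ZMod d)) =
      if ((n : ℕ) : ZMod d) = 1 then (d.totient : ℂ) * ((wx X n * gF F n : ℝ) : ℂ) else 0 := by
    intro n _
    rw [← Finset.mul_sum, DirichletCharacter.sum_char_inv_mul_char_eq ℂ isUnit_one]
    by_cases h : ((n : ℕ) : ZMod d) = 1
    · rw [if_pos h.symm, if_pos h]
      ring
    · rw [if_neg (fun h' => h h'.symm), if_neg h, mul_zero]
  rw [Finset.sum_congr rfl h2, ← Finset.sum_filter, ← Finset.mul_sum]
  push_cast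
  rfl

/-- passage to the primitive character -/
theorem pmF (hg : ∀ n : ℕ, 0 ≤ gF F n ∧ gF F n ≤ Module.finrank ℚ F) (X : ℝ) (d : ℕ)
    (χ : DirichletCharacter ℂ d) (hX : 3 ≤ X) (hd : 1 ≤ d) (hdX : (d : ℝ) ≤ X) :
    ‖TX X (gc F χ) - TX X (gc F χ.primitiveCharacter)‖ ≤
      Module.finrank ℚ F * (8 * Real.log X ^ 2) := by
  have hX0 : 0 < X := by linarith
  have hN1 : 1 ≤ NX X := by
    unfold NX
    exact Nat.one_le_ceil_iff.2 (by linarith)
  unfold TX
  rw [← Finset.sum_sub_distrib]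
  have h1 : ∀ n ∈ Finset.Icc 1 (NX X),
      ‖(wx X n : ℂ) * gc F χ n - (wx X n : ℂ) * gc F χ.primitiveCharacter n‖ ≤
      Module.finrank ℚ F *
        (if n.Coprime d then 0 else ArithmeticFunction.vonMangoldt n) := by
    intro n _
    have hw := Pool.Agent.H58.BV.wx_nonneg X n
    have hw2 := Pool.Agent.H58.BV.wx_le X n
    obtain ⟨hg0, hg1⟩ := hg n
    have hn0 : (0 : ℝ) ≤ Module.finrank ℚ F := Nat.cast_nonneg _
    rw [gc, gc, ← mul_sub, ← mul_sub, norm_mul, norm_mul, Complex.norm_real, Complex.norm_real,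
      Real.norm_eq_abs, Real.norm_eq_abs, abs_of_nonneg hw, abs_of_nonneg hg0]
    split
    · rename_i hcop
      have h2 : cv χ.primitiveCharacter n = cv χ n := by
        unfold cv
        have h3 := χ.primitiveCharacter_apply_of_isCoprime (a := (n : ℤ))
          (Nat.isCoprime_iff_coprime.2 hcop)
        push_cast at h3
        exact h3
      rw [h2, sub_self, norm_zero, mul_zero, mul_zero, mul_zero]
    · rename_i hcop
      have h2 : cv χ n = 0 := by
        unfold cv
        refine MulChar.map_nonunit χ ?_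
        rw [ZMod.isUnit_iff_coprime]
        exact hcop
      rw [h2, zero_sub, norm_neg]
      calc wx X n * (gF F n * ‖cv χ.primitiveCharacter n‖) ≤
            ArithmeticFunction.vonMangoldt n * (Module.finrank ℚ F * 1) := by
            refine mul_le_mul hw2 ?_ (by positivity) (hw.trans hw2)
            exact mul_le_mul hg1 (Pool.Agent.H58.BV.cv_norm_le _ _) (norm_nonneg _) hn0
        _ = _ := by ring
  refine (norm_sum_le _ _).trans ((Finset.sum_le_sum h1).trans ?_)
  rw [← Finset.mul_sum]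
  refine mul_le_mul_of_nonneg_left ?_ (Nat.cast_nonneg _)
  refine (Pool.Agent.H58.BV.pm_sum d (NX X) hd hN1).trans ?_
  have hlX : 0 < Real.log X := Real.log_pos (by linarith)
  have hl2 : (1 / 2 : ℝ) < Real.log 2 := by
    have := Real.log_two_gt_d9
    linarith
  have hNX : Real.log (NX X) ≤ 3 * Real.log X := by
    have h2 : ((NX X : ℕ) : ℝ) ≤ X ^ 3 := by
      have h3 : ((NX X : ℕ) : ℝ) < 3 * X + 1 := Nat.ceil_lt_add_one (by linarith)
      have h4 : 3 * X + 1 ≤ X ^ 3 := by nlinarith [mul_nonneg hX0.le hX0.le]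
      linarith
    have h3 : Real.log (NX X) ≤ Real.log (X ^ 3) :=
      Real.log_le_log (by exact_mod_cast hN1) h2
    rw [Real.log_pow] at h3
    push_cast at h3
    exact h3
  have hc : (d.primeFactors.card : ℝ) * Real.log 2 ≤ Real.log X := by
    have h2 : ((2 ^ d.primeFactors.card : ℕ) : ℝ) ≤ X :=
      le_trans (by exact_mod_cast Pool.Agent.H58.BV.two_pow_card_primeFactors_le d hd) hdX
    have h3 := Real.log_le_log (by positivity) h2
    push_cast at h3
    rw [Real.log_pow] at h3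
    exact h3
  have hc2 : (d.primeFactors.card : ℝ) ≤ 2 * Real.log X := by
    have : (0 : ℝ) ≤ d.primeFactors.card := Nat.cast_nonneg _
    nlinarith
  calc (d.primeFactors.card : ℝ) * Real.log (NX X) ≤ (2 * Real.log X) * (3 * Real.log X) :=
        mul_le_mul hc2 hNX (Real.log_natCast_nonneg _) (by positivity)
    _ ≤ 8 * Real.log X ^ 2 := by nlinarith

theorem rok_dvd {r d : ℕ} (hd : 1 ≤ d) (h : r ∣ d) (hR : Rok F d) : Rok F r :=
  ⟨hR.1.squarefree_of_dvd h, fun p hp => hR.2 p (Nat.primeFactors_mono h (by omega) hp)⟩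

end

theorem pf_APF (hCFF : T_CFF) (hSWF : T_SWF) (hPNF : T_PNF) : T_APF := by
  classical
  intro F _ _ _ A
  obtain ⟨hg, -, -⟩ := hCFF F
  obtain ⟨c, X₁, hc, hP⟩ := hPNF F
  obtain ⟨X₂, hS⟩ := hSWF F A (A + 2)
  set N : ℝ := ((Module.finrank ℚ F : ℕ) : ℝ) with hN
  have hN0 : 0 ≤ N := Nat.cast_nonneg _
  -- the size of `X`
  have hlog : ∀ᶠ X : ℝ in atTop, 8 * N * Real.log X ^ (A + 2) ≤ c / 4 * X ∧
      Real.log X ^ A ≤ X ∧ 4 ≤ c * Real.log X ^ 2 ∧ 1 ≤ Real.log X := by
    have h1 : Tendsto (fun X : ℝ => Real.log X) atTop atTop := Real.tendsto_log_atTop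
    have h2 : ∀ k : ℕ, ∀ ε : ℝ, 0 < ε → ∀ᶠ X : ℝ in atTop, Real.log X ^ k ≤ ε * X := by
      intro k ε hε
      have h3 := (isLittleO_log_rpow_atTop (r := 1) one_pos)
      have h4 := (Real.isLittleO_pow_log_id_atTop (n := k)).bound hε
      filter_upwards [h4, eventually_ge_atTop (1 : ℝ)] with X hX hX1
      rw [Real.norm_of_nonneg (pow_nonneg (Real.log_nonneg hX1) k), id,
        Real.norm_of_nonneg (by linarith)] at hX
      exact hX
    have h5 := h2 (A + 2) (c / 4 / (8 * N + 1)) (by positivity)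
    have h6 := h2 A 1 one_pos
    filter_upwards [h5, h6, h1.eventually_ge_atTop (4 / c), h1.eventually_ge_atTop 1,
      eventually_ge_atTop (1 : ℝ)] with X h5 h6 h7 h8 hX1
    refine ⟨?_, by linarith, ?_, h8⟩
    · have h9 : (8 * N + 1) * Real.log X ^ (A + 2) ≤ c / 4 * X := by
        calc (8 * N + 1) * Real.log X ^ (A + 2) ≤
              (8 * N + 1) * (c / 4 / (8 * N + 1) * X) :=
              mul_le_mul_of_nonneg_left h5 (by positivity)
          _ = c / 4 * X := by field_simp
      have h10 : 0 ≤ Real.log X ^ (A + 2) := pow_nonneg (by linarith) _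
      linarith
    · rw [div_le_iff₀ hc] at h7
      have h11 : Real.log X * c ≤ Real.log X * c * Real.log X :=
        le_mul_of_one_le_right (by positivity) h8
      nlinarith
  obtain ⟨X₃, hX₃⟩ := eventually_atTop.1 hlog
  refine ⟨c / 2, max (max X₁ X₂) (max X₃ 3), by positivity, fun X hX => ?_⟩
  have hX1 : X₁ ≤ X := ((le_max_left _ _).trans (le_max_left _ _)).trans hX
  have hX2 : X₂ ≤ X := ((le_max_right _ _).trans (le_max_left _ _)).trans hX
  have hX3 : X₃ ≤ X := ((le_max_left _ _).trans (le_max_right _ _)).trans hX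
  have hX4 : 3 ≤ X := ((le_max_right _ _).trans (le_max_right _ _)).trans hX
  obtain ⟨hl1, hl2, hl3, hl4⟩ := hX₃ X hX3
  obtain ⟨q₁, hq⟩ := hS X hX2
  refine ⟨q₁, fun d hd hdA hR hex => ?_⟩
  have hdX : (d : ℝ) ≤ X := hdA.trans hl2
  have : NeZero d := ⟨by omega⟩
  have hφ : (0 : ℝ) < d.totient := by exact_mod_cast Nat.totient_pos.2 hd
  have hφd : (d.totient : ℝ) ≤ d := by exact_mod_cast Nat.totient_le d
  have hd0 : (0 : ℝ) < d := by exact_mod_cast hd
  set S : ℝ := ∑ n ∈ (Finset.Icc 1 (NX X)).filter (fun n : ℕ => (n : ZMod d) = 1),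
    wx X n * gF F n with hSd
  have hid := cl_id F d X
  rw [← hSd] at hid
  -- the principal character
  set W : ℝ := ∑ n ∈ Finset.Icc 1 (NX X), wx X n * gF F n with hW
  have h1 : TX X (gc F (1 : DirichletCharacter ℂ d).primitiveCharacter) = (W : ℂ) := by
    rw [TX, hW]
    push_cast
    refine Finset.sum_congr rfl fun n _ => ?_
    rw [gc, Pool.Agent.H56.BV.cl_cv_one _ (DirichletCharacter.conductor_one) _ n, mul_one]
  have h2 := pmF F hg X d 1 hX4 hd hdX
  rw [h1] at h2
  -- the others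
  set E : ℝ := N * (8 * Real.log X ^ 2) + X / Real.log X ^ (A + 2) with hE
  have hlp : 0 < Real.log X := by linarith
  have h3 : ∀ χ : DirichletCharacter ℂ d, χ ≠ 1 → ‖TX X (gc F χ)‖ ≤ E := by
    intro χ hχ
    have hc1 : χ.conductor ∣ d := χ.conductor_dvd_level
    have hc2 : 2 ≤ χ.conductor := by
      have h4 : χ.conductor ≠ 1 := fun h => hχ (DirichletCharacter.eq_one_iff_conductor_eq_one.2 h)
      have h5 : χ.conductor ≠ 0 := fun h => by
        rw [h, zero_dvd_iff] at hc1
        omega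
      omega
    have hc3 : ((χ.conductor : ℕ) : ℝ) ≤ Real.log X ^ A :=
      le_trans (by exact_mod_cast Nat.le_of_dvd hd hc1) hdA
    have h4 := hq χ.conductor χ.primitiveCharacter hc2 hc3
      (fun h => hex ⟨h ▸ hc2, h ▸ hc1⟩) (rok_dvd F hd hc1 hR) χ.primitiveCharacter_isPrimitive
    have h5 := pmF F hg X d χ hX4 hd hdX
    have h6 : ‖TX X (gc F χ)‖ ≤ ‖TX X (gc F χ) - TX X (gc F χ.primitiveCharacter)‖ +
        ‖TX X (gc F χ.primitiveCharacter)‖ := by
      have := norm_add_le (TX X (gc F χ) - TX X (gc F χ.primitiveCharacter))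
        (TX X (gc F χ.primitiveCharacter))
      rwa [sub_add_cancel] at this
    rw [hE]
    linarith
  have hcard : ((Finset.univ.erase (1 : DirichletCharacter ℂ d)).card : ℝ) ≤ d.totient - 1 := by
    rw [Finset.card_erase_of_mem (Finset.mem_univ _), Finset.card_univ, Fintype.card_eq_nat_card,
      DirichletCharacter.card_eq_totient_of_hasEnoughRootsOfUnity ℂ d]
    have : 1 ≤ d.totient := Nat.totient_pos.2 hd
    push_cast [Nat.cast_sub this]
    exact le_rfl
  have hE0 : 0 ≤ E := by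
    rw [hE]
    positivity
  have h4 : ‖∑ χ ∈ Finset.univ.erase (1 : DirichletCharacter ℂ d), TX X (gc F χ)‖ ≤
      (d.totient - 1) * E := by
    refine (norm_sum_le _ _).trans ((Finset.sum_le_card_nsmul _ _ E fun χ hχ =>
      h3 χ (Finset.ne_of_mem_erase hχ)).trans ?_)
    rw [nsmul_eq_mul]
    exact mul_le_mul_of_nonneg_right hcard hE0
  have h6 : (d.totient : ℂ) * (S : ℂ) - (W : ℂ) =
      (TX X (gc F (1 : DirichletCharacter ℂ d)) - (W : ℂ)) +
        ∑ χ ∈ Finset.univ.erase (1 : DirichletCharacter ℂ d), TX X (gc F χ) := by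
    rw [hid, ← Finset.add_sum_erase _ _ (Finset.mem_univ (1 : DirichletCharacter ℂ d))]
    ring
  have h7 : ‖(d.totient : ℂ) * (S : ℂ) - (W : ℂ)‖ ≤ d.totient * E := by
    rw [h6]
    refine (norm_add_le _ _).trans ?_
    have h8 : 0 ≤ X / Real.log X ^ (A + 2) := by positivity
    have h9 : N * (8 * Real.log X ^ 2) ≤ E := by rw [hE]; linarith
    linarith
  have h8 : (d.totient : ℂ) * (S : ℂ) - (W : ℂ) = (((d.totient : ℝ) * S - W : ℝ) : ℂ) := by
    push_cast
    ring
  rw [h8, Complex.norm_real, Real.norm_eq_abs] at h7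
  have h9 := (abs_le.1 h7).1
  have h10 := hP X hX1
  rw [← hW] at h10
  -- the error term
  have h11 : E * Real.log X ^ A ≤ c / 2 * X := by
    have h12 : E * Real.log X ^ A = 8 * N * Real.log X ^ (A + 2) + X / Real.log X ^ 2 := by
      rw [hE, pow_add]
      field_simp
    have h13 : X / Real.log X ^ 2 ≤ c / 4 * X := by
      rw [div_le_iff₀ (by positivity)]
      nlinarith
    rw [h12]
    linarith
  have h12 : E * d ≤ c / 2 * X := (mul_le_mul_of_nonneg_left hdA hE0).trans h11
  rw [div_le_iff₀ hd0]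
  have h13 : c * X ≤ d.totient * (S + E) := by linarith
  have h14 : 0 < S + E := by
    by_contra hcon
    push Not at hcon
    have : (d.totient : ℝ) * (S + E) ≤ 0 := mul_nonpos_of_nonneg_of_nonpos hφ.le hcon
    have : 0 < c * X := by positivity
    linarith
  have h15 : (d.totient : ℝ) * (S + E) ≤ d * (S + E) := mul_le_mul_of_nonneg_right hφd h14.le
  linarith

end Pool.Agent.H95.SM
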