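import Pool.Agent.H20.SM.TP
import Pool.Agent.H14.BV.LO

/-!
# Lower bound for all moduli except one (row LOF)
-/

set_option autoImplicit false

open NumberField NumberField.InfinitePlace Complex Filter Topology

namespace Pool.Agent.H95.SM

open Pool.Agent.H20.SM
open Pool.Agent.H30.BV (cv DS TX wx WX NX)
open Pool.Agent.H14.BV (add_le_two_mul one_le_log_three log_four_mul)

section

variable (F : Type) [Field F] [NumberField F]

/-- the bad moduli -/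
def BadF (Q : ℕ) (x Th : ℝ) (q : ℕ) : Prop :=
  2 ≤ q ∧ q ≤ Q ∧ Rok F q ∧ ∃ χ : DirichletCharacter ℂ q, χ.IsPrimitive ∧ χ ^ 2 = 1 ∧
    ‖DS (ac F χ) 0 (1 + x)‖ < Th

theorem badF_unique {Ce : ℝ} {E : ℕ} (hEA : ∀ (Q q₁ q₂ : ℕ) (χ₁ : DirichletCharacter ℂ q₁)
    (χ₂ : DirichletCharacter ℂ q₂) (x : ℝ), 3 ≤ Q → 2 ≤ q₁ → q₁ ≤ Q → 2 ≤ q₂ → q₂ ≤ Q →
    q₁ ≠ q₂ → Rok F q₁ → Rok F q₂ → χ₁.IsPrimitive → χ₂.IsPrimitive → χ₁ ^ 2 = 1 →
    χ₂ ^ 2 = 1 → 0 < x → x ≤ 1 →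
      1 ≤ Ce / x * ‖DS (ac F χ₁) 0 (1 + x)‖ * ‖DS (ac F χ₂) 0 (1 + x)‖ * Real.log Q ^ E)
    (hCe : 0 < Ce) {Q : ℕ} (hQ : 3 ≤ Q) {x Th : ℝ} (hx : 0 < x) (hx1 : x ≤ 1)
    (hTh : Ce / x * Th ^ 2 * Real.log Q ^ E < 1) {q q' : ℕ} (h : BadF F Q x Th q)
    (h' : BadF F Q x Th q') : q = q' := by
  by_contra hne
  obtain ⟨h1, h2, hR, χ, h3, h4, h5⟩ := h
  obtain ⟨h1', h2', hR', χ', h3', h4', h5'⟩ := h'
  have hlQ : 0 < Real.log Q := Real.log_pos (by exact_mod_cast (by omega : 1 < Q))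
  have key := hEA Q q q' χ χ' x hQ h1 h2 h1' h2' hne hR hR' h3 h3' h4 h4' hx hx1
  have h6 : ‖DS (ac F χ) 0 (1 + x)‖ * ‖DS (ac F χ') 0 (1 + x)‖ ≤ Th ^ 2 := by
    rw [sq]
    exact mul_le_mul h5.le h5'.le (norm_nonneg _) ((norm_nonneg _).trans h5.le)
  have h7 : Ce / x * ‖DS (ac F χ) 0 (1 + x)‖ * ‖DS (ac F χ') 0 (1 + x)‖ * Real.log Q ^ E ≤
      Ce / x * Th ^ 2 * Real.log Q ^ E := by
    rw [mul_assoc (Ce / x)]
    gcongr
  linarith

/-- the three cases -/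
theorem loF_cases {c4 C cT : ℝ} {E4 E3 : ℕ} (hc4 : 0 < c4) (hC : 1 ≤ C) (hcT : 0 < cT)
    (hcT1 : cT ≤ 1)
    (h4 : ∀ (r : ℕ) (χ : DirichletCharacter ℂ r) (η : ℝ) (s : ℂ), 2 ≤ r → Rok F r →
      χ.IsPrimitive → 0 < η → η ≤ 1 → 1 < s.re → s.re ≤ 2 → (χ ^ 2 ≠ 1 ∨ η ≤ |s.im|) →
        c4 * η / Real.log (r * (|s.im| + 3)) ^ E4 ≤ ‖DS (ac F χ) 0 s‖)
    (hDV : ∀ (r : ℕ) (χ : DirichletCharacter ℂ r) (T : ℝ) (s₁ s₂ : ℂ), 2 ≤ r → Rok F r →
      χ.IsPrimitive → 0 ≤ T → 1 < s₁.re → s₁.re ≤ 3 → 1 < s₂.re → s₂.re ≤ 3 → |s₁.im| ≤ T →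
      |s₂.im| ≤ T →
      ‖DS (ac F χ) 0 s₁ - DS (ac F χ) 0 s₂‖ ≤ C * Real.log (r * (T + 3)) ^ E3 * ‖s₁ - s₂‖)
    (hTL : ∀ (r : ℕ) (χ : DirichletCharacter ℂ r) (s : ℂ), 1 ≤ r → 1 < s.re → s.re ≤ 3 →
      cT * (s.re - 1) ≤ ‖DS (ac F χ) 0 s‖) {Q : ℕ} (hQ : 3 ≤ Q) {x : ℝ} (hx : 0 < x)
    (hx1 : x ≤ 1) {q : ℕ} (hq : 2 ≤ q) (hqQ : q ≤ Q) (hR : Rok F q)
    (χ : DirichletCharacter ℂ q) (hχ : χ.IsPrimitive)
    (hbad : ¬ BadF F Q x (4 * C * 3 ^ E3 * x * Real.log Q ^ E3) q) {s : ℂ} (hs : 1 < s.re)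
    (hs2 : s.re ≤ 2) :
    c4 * x / (2 ^ E4 * (Real.log Q * Real.log (|s.im| + 3)) ^ E4) ≤ ‖DS (ac F χ) 0 s‖ ∨
      cT * x ≤ ‖DS (ac F χ) 0 s‖ := by
  have hlQ : 1 ≤ Real.log Q := one_le_log_three (by exact_mod_cast hQ)
  have hlt : 1 ≤ Real.log (|s.im| + 3) := one_le_log_three (by linarith [abs_nonneg s.im])
  have hq0 : (0 : ℝ) < q := by exact_mod_cast (by omega : 0 < q)
  have hq1 : (2 : ℝ) ≤ q := by exact_mod_cast hq
  have hqQ' : (q : ℝ) ≤ Q := by exact_mod_cast hqQ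
  by_cases hA : χ ^ 2 ≠ 1 ∨ x ≤ |s.im|
  · left
    refine le_trans ?_ (h4 q χ x s hq hR hχ hx hx1 hs hs2 hA)
    have h5 : Real.log (q * (|s.im| + 3)) ≤ 2 * (Real.log Q * Real.log (|s.im| + 3)) := by
      rw [Real.log_mul hq0.ne' (by linarith [abs_nonneg s.im])]
      have := Real.log_le_log hq0 hqQ'
      linarith [add_le_two_mul hlQ hlt]
    have h6 : 0 < Real.log (q * (|s.im| + 3)) := by
      apply Real.log_pos
      nlinarith [abs_nonneg s.im]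
    have h7 : Real.log (q * (|s.im| + 3)) ^ E4 ≤
        2 ^ E4 * (Real.log Q * Real.log (|s.im| + 3)) ^ E4 := by
      calc Real.log (q * (|s.im| + 3)) ^ E4
          ≤ (2 * (Real.log Q * Real.log (|s.im| + 3))) ^ E4 := by gcongr
        _ = 2 ^ E4 * (Real.log Q * Real.log (|s.im| + 3)) ^ E4 := by rw [mul_pow]
    have h8 : 0 < Real.log (q * (|s.im| + 3)) ^ E4 := by positivity
    gcongr
  · right
    push Not at hA
    obtain ⟨hA1, hA2⟩ := hA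
    by_cases hσ : s.re ≤ 1 + x
    · have hnb : 4 * C * 3 ^ E3 * x * Real.log Q ^ E3 ≤ ‖DS (ac F χ) 0 (1 + x)‖ := by
        by_contra hcon
        push Not at hcon
        exact hbad ⟨hq, hqQ, hR, χ, hχ, hA1, hcon⟩
      have h1x : (1 + (x : ℂ)).re = 1 + x := by simp
      have h1xi : (1 + (x : ℂ)).im = 0 := by simp
      have hd := hDV q χ 1 (1 + x) s hq hR hχ (by norm_num) (by rw [h1x]; linarith)
        (by rw [h1x]; linarith) hs (by linarith) (by rw [h1xi]; simp) (by linarith)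
      have hn : ‖(1 + (x : ℂ)) - s‖ ≤ 2 * x := by
        refine (Complex.norm_le_abs_re_add_abs_im _).trans ?_
        have e1 : ((1 + (x : ℂ)) - s).re = 1 + x - s.re := by simp
        have e2 : ((1 + (x : ℂ)) - s).im = - s.im := by simp
        rw [e1, e2, abs_neg, abs_of_nonneg (by linarith)]
        linarith
      have hl4 := log_four_mul hq hqQ
      have hl0 : 0 ≤ Real.log ((q : ℝ) * (1 + 3)) := Real.log_nonneg (by linarith)
      have hsq : Real.log ((q : ℝ) * (1 + 3)) ^ E3 ≤ 3 ^ E3 * Real.log Q ^ E3 := by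
        calc Real.log ((q : ℝ) * (1 + 3)) ^ E3 ≤ (3 * Real.log Q) ^ E3 := by gcongr
          _ = 3 ^ E3 * Real.log Q ^ E3 := by rw [mul_pow]
      have hC0 : 0 < C := by linarith
      have hd2 : ‖DS (ac F χ) 0 (1 + x) - DS (ac F χ) 0 s‖ ≤
          2 * C * 3 ^ E3 * x * Real.log Q ^ E3 := by
        calc ‖DS (ac F χ) 0 (1 + x) - DS (ac F χ) 0 s‖
            ≤ C * Real.log ((q : ℝ) * (1 + 3)) ^ E3 * ‖(1 + (x : ℂ)) - s‖ := hd
          _ ≤ C * (3 ^ E3 * Real.log Q ^ E3) * (2 * x) := by gcongr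
          _ = 2 * C * 3 ^ E3 * x * Real.log Q ^ E3 := by ring
      have htri : ‖DS (ac F χ) 0 (1 + x)‖ ≤
          ‖DS (ac F χ) 0 (1 + x) - DS (ac F χ) 0 s‖ + ‖DS (ac F χ) 0 s‖ := by
        have := norm_add_le (DS (ac F χ) 0 (1 + x) - DS (ac F χ) 0 s) (DS (ac F χ) 0 s)
        simpa using this
      have hbig : x ≤ C * 3 ^ E3 * x * Real.log Q ^ E3 := by
        have h0 : (1 : ℝ) ≤ 3 ^ E3 := one_le_pow₀ (by norm_num)
        have h1 : 1 ≤ Real.log Q ^ E3 := one_le_pow₀ hlQ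
        have h2 : 1 ≤ C * 3 ^ E3 := one_le_mul_of_one_le_of_one_le hC h0
        have h3 : 1 ≤ C * 3 ^ E3 * Real.log Q ^ E3 := one_le_mul_of_one_le_of_one_le h2 h1
        nlinarith
      have h9 : 2 * (C * 3 ^ E3 * x * Real.log Q ^ E3) ≤ ‖DS (ac F χ) 0 s‖ := by linarith
      have h10 : cT * x ≤ 1 * x := mul_le_mul_of_nonneg_right hcT1 hx.le
      linarith
    · push Not at hσ
      refine le_trans ?_ (hTL q χ s (by omega) hs (by linarith))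
      exact mul_le_mul_of_nonneg_left (by linarith) hcT.le

end

theorem pf_LOF (hTLF : T_TLF) (hDVF : T_DVF) (hC4F : T_C4F) (hEAF : T_EAF) : T_LOF := by
  intro F _ _ _
  obtain ⟨cT', hcT', hTL'⟩ := hTLF F
  obtain ⟨C3, E3, hC3, hDV⟩ := hDVF F
  obtain ⟨c4, E4, hc4, h4⟩ := hC4F F
  obtain ⟨Ce, E, hCe, hEA⟩ := hEAF F
  set cT : ℝ := min cT' 1 with hcTd
  have hcT : 0 < cT := lt_min hcT' one_pos
  have hcT1 : cT ≤ 1 := min_le_right _ _
  have hTL : ∀ (r : ℕ) (χ : DirichletCharacter ℂ r) (s : ℂ), 1 ≤ r → 1 < s.re → s.re ≤ 3 →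
      cT * (s.re - 1) ≤ ‖DS (ac F χ) 0 s‖ := by
    intro r χ s h1 h2 h3
    refine le_trans ?_ (hTL' r χ s h1 h2 h3).1
    exact mul_le_mul_of_nonneg_right (min_le_left _ _) (by linarith)
  set C : ℝ := max C3 1 with hCdef
  have hC1 : 1 ≤ C := le_max_right _ _
  have hC0 : 0 < C := by linarith
  have hDV' : ∀ (r : ℕ) (χ : DirichletCharacter ℂ r) (T : ℝ) (s₁ s₂ : ℂ), 2 ≤ r → Rok F r →
      χ.IsPrimitive → 0 ≤ T → 1 < s₁.re → s₁.re ≤ 3 → 1 < s₂.re → s₂.re ≤ 3 → |s₁.im| ≤ T →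
      |s₂.im| ≤ T →
      ‖DS (ac F χ) 0 s₁ - DS (ac F χ) 0 s₂‖ ≤ C * Real.log (r * (T + 3)) ^ E3 * ‖s₁ - s₂‖ := by
    intro r χ T s₁ s₂ a1 a2 a3 a4 a5 a6 a7 a8 a9 a10
    refine (hDV r χ T s₁ s₂ a1 a2 a3 a4 a5 a6 a7 a8 a9 a10).trans ?_
    have : C3 ≤ C := le_max_left _ _
    have hr : (2 : ℝ) ≤ r := by exact_mod_cast a1
    have hl : 0 ≤ Real.log (r * (T + 3)) := Real.log_nonneg (by nlinarith)
    gcongr
  set D : ℝ := 16 * Ce * C ^ 2 * 9 ^ E3 with hD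
  have hD0 : 0 < D := by positivity
  set c5 : ℝ := 1 / (D + 1) with hc5
  have hc50 : 0 < c5 := by positivity
  have hc51 : c5 ≤ 1 := by
    rw [hc5, div_le_one (by positivity)]
    linarith
  have hDc : D * c5 < 1 := by
    rw [hc5, mul_one_div, div_lt_one (by positivity)]
    linarith
  set k : ℕ := 2 * E3 + E with hk
  refine ⟨k + E4, min 1 (min (c4 * c5 / 2 ^ E4) (cT * c5)), by positivity, min_le_left _ _, ?_⟩
  intro Q hQ3
  have hlQ : 1 ≤ Real.log Q := one_le_log_three (by exact_mod_cast hQ3)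
  have hlQ0 : 0 < Real.log Q := by linarith
  have hQ0 : (0 : ℝ) < Q := by exact_mod_cast (by omega : 0 < Q)
  set x : ℝ := c5 / Real.log Q ^ k with hxdef
  have hx : 0 < x := by positivity
  have hx1 : x ≤ 1 := by
    rw [hxdef, div_le_one (by positivity)]
    exact hc51.trans (one_le_pow₀ hlQ)
  set Th : ℝ := 4 * C * 3 ^ E3 * x * Real.log Q ^ E3 with hTh
  have hEAth : Ce / x * Th ^ 2 * Real.log Q ^ E < 1 := by
    have e : Ce / x * Th ^ 2 * Real.log Q ^ E = D * c5 := by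
      have e1 : Ce / x * Th ^ 2 * Real.log Q ^ E =
          D * (x * (Real.log Q ^ E3 * Real.log Q ^ E3 * Real.log Q ^ E)) := by
        rw [hTh, hD]
        have h9 : (9 : ℝ) ^ E3 = 3 ^ E3 * 3 ^ E3 := by
          rw [← mul_pow]
          norm_num
        rw [h9]
        field_simp
        ring
      have e2 : Real.log Q ^ E3 * Real.log Q ^ E3 * Real.log Q ^ E = Real.log Q ^ k := by
        rw [hk, ← pow_add, ← pow_add]
        congr 1
        ring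
      rw [e1, e2, hxdef, div_mul_cancel₀ _ (by positivity)]
    rw [e]
    exact hDc
  have hq₁ : ∃ q₁ : ℕ, ∀ q, q ≠ q₁ → ¬ BadF F Q x Th q := by
    by_cases hex : ∃ q₁, BadF F Q x Th q₁
    · obtain ⟨q₁, h⟩ := hex
      refine ⟨q₁, fun q hq hb => hq ?_⟩
      exact badF_unique F hEA hCe hQ3 hx hx1 hEAth hb h
    · push Not at hex
      exact ⟨0, fun q _ => hex q⟩
  obtain ⟨q₁, hq₁⟩ := hq₁
  refine ⟨q₁, ?_⟩
  intro q χ s hq hqQ hqne hR hχ hs hs2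
  have hlt : 1 ≤ Real.log (|s.im| + 3) := one_le_log_three (by linarith [abs_nonneg s.im])
  have hlt0 : 0 < Real.log (|s.im| + 3) := by linarith
  have hP0 : 0 < Real.log Q * Real.log (|s.im| + 3) := by positivity
  have hQP : Real.log Q ≤ Real.log Q * Real.log (|s.im| + 3) := le_mul_of_one_le_right hlQ0.le hlt
  have hP1 : 1 ≤ Real.log Q * Real.log (|s.im| + 3) := hlQ.trans hQP
  rcases loF_cases F hc4 hC1 hcT hcT1 h4 hDV' hTL hQ3 hx hx1 hq hqQ hR χ hχ (hq₁ q hqne) hs hs2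
    with h | h
  · refine le_trans ?_ h
    have h1 : min 1 (min (c4 * c5 / 2 ^ E4) (cT * c5)) ≤ c4 * c5 / 2 ^ E4 :=
      (min_le_right _ _).trans (min_le_left _ _)
    have h2 : c4 * x / (2 ^ E4 * (Real.log Q * Real.log (|s.im| + 3)) ^ E4) =
        (c4 * c5 / 2 ^ E4) / (Real.log Q ^ k * (Real.log Q * Real.log (|s.im| + 3)) ^ E4) := by
      rw [hxdef]
      field_simp
    rw [h2]
    have h3 : Real.log Q ^ k * (Real.log Q * Real.log (|s.im| + 3)) ^ E4 ≤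
        (Real.log Q * Real.log (|s.im| + 3)) ^ (k + E4) := by
      calc Real.log Q ^ k * (Real.log Q * Real.log (|s.im| + 3)) ^ E4
          ≤ (Real.log Q * Real.log (|s.im| + 3)) ^ k *
            (Real.log Q * Real.log (|s.im| + 3)) ^ E4 := by gcongr
        _ = (Real.log Q * Real.log (|s.im| + 3)) ^ (k + E4) := by rw [← pow_add]
    gcongr
  · refine le_trans ?_ h
    have h1 : min 1 (min (c4 * c5 / 2 ^ E4) (cT * c5)) ≤ cT * c5 :=
      (min_le_right _ _).trans (min_le_right _ _)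
    have h2 : cT * x = (cT * c5) / Real.log Q ^ k := by
      rw [hxdef]
      field_simp
    rw [h2]
    have h3 : Real.log Q ^ k ≤ (Real.log Q * Real.log (|s.im| + 3)) ^ (k + E4) := by
      calc Real.log Q ^ k ≤ (Real.log Q * Real.log (|s.im| + 3)) ^ k := by gcongr
        _ ≤ (Real.log Q * Real.log (|s.im| + 3)) ^ (k + E4) :=
          pow_le_pow_right₀ hP1 (by omega)
    gcongr

end Pool.Agent.H95.SM
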