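import Pool.Agent.H20.SM.TP

/-!
# Special moduli exist (row POOL)
-/

set_option autoImplicit false

open NumberField NumberField.InfinitePlace Complex Filter Topology

namespace Pool.Agent.H95.SM

open Pool.Agent.H20.SM

/-- the primes in a dyadic interval -/
noncomputable def dy (j : ℕ) : Finset ℕ := (Finset.Ioc (2 ^ j) (2 ^ (j + 1))).filter Nat.Prime

theorem mem_dy {j p : ℕ} : p ∈ dy j ↔ (2 ^ j < p ∧ p ≤ 2 ^ (j + 1)) ∧ p.Prime := by
  simp [dy, Finset.mem_filter, Finset.mem_Ioc]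

theorem pi_step (j : ℕ) : Nat.primeCounting (2 ^ (j + 1)) =
    Nat.primeCounting (2 ^ j) + (dy j).card := by
  rw [← Nat.primesLE_card_eq_primeCounting, ← Nat.primesLE_card_eq_primeCounting,
    ← Finset.card_union_of_disjoint]
  · congr 1
    ext p
    simp only [Nat.mem_primesLE, Finset.mem_union, mem_dy]
    have : 2 ^ j ≤ 2 ^ (j + 1) := Nat.pow_le_pow_right (by norm_num) (by omega)
    constructor
    · rintro ⟨h, hp⟩
      by_cases h2 : p ≤ 2 ^ j
      · exact Or.inl ⟨h2, hp⟩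
      · exact Or.inr ⟨⟨by omega, h⟩, hp⟩
    · rintro (⟨h, hp⟩ | ⟨⟨h1, h2⟩, hp⟩)
      · exact ⟨by omega, hp⟩
      · exact ⟨h2, hp⟩
  · rw [Finset.disjoint_left]
    intro p hp hq
    simp only [Nat.mem_primesLE, mem_dy] at hp hq
    omega

theorem two_pow_gt (T : ℕ) (h : 7 ≤ T) : 11 * T < 2 ^ T := by
  induction T, h using Nat.le_induction with
  | base => norm_num
  | succ T hT ih =>
    rw [pow_succ]
    omega

/-- infinitely many dyadic intervals contain many primes -/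
theorem dyadic (K : ℕ) : ∃ j : ℕ, K ≤ j ∧ 2 ^ j ≤ (dy j).card ^ 2 := by
  by_contra h
  push Not at h
  have h43 : (4 / 3 : ℝ) ≤ Real.sqrt 2 := by
    apply Real.le_sqrt_of_sq_le
    norm_num
  have hup : ∀ j, K ≤ j → (Nat.primeCounting (2 ^ j) : ℝ) ≤ 2 ^ K + 3 * Real.sqrt 2 ^ j := by
    intro j hj
    induction j, hj using Nat.le_induction with
    | base =>
      have h1 : Nat.primeCounting (2 ^ K) ≤ 2 ^ K := by
        rw [← Nat.primesLE_card_eq_primeCounting, Nat.primesLE_eq_filter_Icc_one]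
        refine (Finset.card_filter_le _ _).trans ?_
        simp
      have h2 : (Nat.primeCounting (2 ^ K) : ℝ) ≤ 2 ^ K := by exact_mod_cast h1
      have h3 : (0 : ℝ) ≤ 3 * Real.sqrt 2 ^ K := by positivity
      linarith
    | succ j hj ih =>
      rw [pi_step]
      push_cast
      have h1 : ((dy j).card : ℝ) ≤ Real.sqrt 2 ^ j := by
        have h2 := h j hj
        have h3 : ((dy j).card : ℝ) ^ 2 ≤ (Real.sqrt 2 ^ j) ^ 2 := by
          rw [← pow_mul, mul_comm, pow_mul, Real.sq_sqrt (by norm_num)]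
          exact_mod_cast h2.le
        exact (pow_le_pow_iff_left₀ (by positivity) (by positivity) two_ne_zero).1 h3
      have h4 : (0 : ℝ) ≤ Real.sqrt 2 ^ j := by positivity
      rw [pow_succ]
      nlinarith [mul_le_mul_of_nonneg_left h43 h4]
  obtain ⟨T, hTK, hT7⟩ : ∃ T, K ≤ T ∧ 7 ≤ T := ⟨max K 7, le_max_left _ _, le_max_right _ _⟩
  have hT := two_pow_gt T hT7
  have hl2 : 0 < Real.log 2 := Real.log_pos (by norm_num)
  have h1 := hup (2 * T) (by omega)
  have hs : Real.sqrt 2 ^ (2 * T) = 2 ^ T := by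
    rw [pow_mul, Real.sq_sqrt (by norm_num)]
  rw [hs] at h1
  have h2 := Chebyshev.pi_ge (2 ^ (2 * T))
  have hlog : Real.log ((2 ^ (2 * T) : ℕ) : ℝ) = 2 * T * Real.log 2 := by
    push_cast
    rw [Real.log_pow]
    push_cast
    ring
  have hTr : (7 : ℝ) ≤ T := by exact_mod_cast hT7
  rw [hlog, div_le_iff₀ (by positivity)] at h2
  have hlog2 : Real.log (((2 ^ (2 * T) : ℕ) : ℝ) + 1) ≤ (2 * T + 1) * Real.log 2 := by
    have h5 : (((2 ^ (2 * T) : ℕ) : ℝ) + 1) ≤ 2 ^ (2 * T + 1) := by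
      push_cast
      rw [pow_succ]
      have : (1 : ℝ) ≤ 2 ^ (2 * T) := one_le_pow₀ (by norm_num)
      linarith
    refine (Real.log_le_log (by positivity) h5).trans ?_
    rw [Real.log_pow]
    push_cast
    exact le_rfl
  have hK : (2 : ℝ) ^ K ≤ 2 ^ T := pow_le_pow_right₀ (by norm_num) hTK
  have h6 : (Nat.primeCounting (2 ^ (2 * T)) : ℝ) ≤ 4 * 2 ^ T := by linarith
  have h7 : (2 : ℝ) ^ (2 * T) = 2 ^ T * 2 ^ T := by rw [two_mul, pow_add]
  push_cast at h2 hlog2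
  have h8 : (2 : ℝ) ^ (2 * T) * Real.log 2 ≤
      (8 * T * 2 ^ T + 2 * T + 1) * Real.log 2 := by
    have h9 : (Nat.primeCounting (2 ^ (2 * T)) : ℝ) * (2 * T * Real.log 2) ≤
        4 * 2 ^ T * (2 * T * Real.log 2) := mul_le_mul_of_nonneg_right h6 (by positivity)
    nlinarith
  have h10 : (2 : ℝ) ^ (2 * T) ≤ 8 * T * 2 ^ T + 2 * T + 1 := le_of_mul_le_mul_right h8 hl2
  rw [h7] at h10
  have h11 : (11 * T : ℝ) + 1 ≤ 2 ^ T := by exact_mod_cast hT
  have h12 : (1 : ℝ) ≤ 2 ^ T := one_le_pow₀ (by norm_num)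
  nlinarith [mul_le_mul_of_nonneg_right h11 (by positivity : (0 : ℝ) ≤ 2 ^ T),
    mul_le_mul_of_nonneg_left h12 (by positivity : (0 : ℝ) ≤ 3 * (T : ℝ))]

/-- pigeonhole: many of the primes have the same quotient -/
theorem pigeon (B : ℕ) (LL P : Finset ℕ) (Y x c : ℝ) (hY : 0 < Y)
    (hLL : ∀ l ∈ LL, l.Prime ∧ Y ≤ l) (hP : ∀ p ∈ P, 2 ≤ p ∧ (p : ℝ) ≤ x) (hx : Y ^ B ≤ x)
    (hc : 0 ≤ c)
    (hS : ∀ S ∈ Finset.powersetCard B LL, c ≤ ((P.filter fun p => (∏ l ∈ S, l) ∣ p - 1).card : ℝ)) :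
    ∃ m : ℕ, 1 ≤ m ∧ (m : ℝ) * Y ^ B ≤ x ∧ ∃ Q ⊆ P, (∀ p ∈ Q, p - 1 ∣ m * ∏ l ∈ LL, l) ∧
      ((LL.card.choose B : ℕ) : ℝ) * c * Y ^ B / x ≤ Q.card := by
  classical
  have hYB : 0 < Y ^ B := by positivity
  have hx0 : 0 < x := hYB.trans_le hx
  set PP : Finset (Finset ℕ × ℕ) := ((Finset.powersetCard B LL) ×ˢ P).filter
    (fun w => (∏ l ∈ w.1, l) ∣ w.2 - 1) with hPP
  have hpos : ∀ S ∈ Finset.powersetCard B LL, 0 < ∏ l ∈ S, l := by
    intro S hS'
    rw [Finset.mem_powersetCard] at hS'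
    exact Finset.prod_pos fun l hl => (hLL l (hS'.1 hl)).1.pos
  have hge : ∀ S ∈ Finset.powersetCard B LL, Y ^ B ≤ ((∏ l ∈ S, l : ℕ) : ℝ) := by
    intro S hS'
    rw [Finset.mem_powersetCard] at hS'
    push_cast
    rw [← hS'.2, ← Finset.prod_const]
    exact Finset.prod_le_prod (fun _ _ => hY.le) fun l hl => (hLL l (hS'.1 hl)).2
  set t : Finset ℕ := Finset.Icc 1 ⌊x / Y ^ B⌋₊ with ht
  have ht1 : 1 ≤ x / Y ^ B := by rwa [one_le_div hYB]
  have htn : t.Nonempty := by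
    rw [ht, Finset.nonempty_Icc]
    exact Nat.le_floor (by exact_mod_cast ht1)
  have htc : (t.card : ℝ) ≤ x / Y ^ B := by
    rw [ht, Nat.card_Icc, Nat.add_sub_cancel]
    exact Nat.floor_le (by positivity)
  have htp : (0 : ℝ) < t.card := by exact_mod_cast Finset.card_pos.2 htn
  have hcard : ((LL.card.choose B : ℕ) : ℝ) * c ≤ PP.card := by
    have h1 : PP.card = ∑ S ∈ Finset.powersetCard B LL,
        (P.filter fun p => (∏ l ∈ S, l) ∣ p - 1).card := by
      rw [hPP, Finset.card_filter, Finset.sum_product]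
      refine Finset.sum_congr rfl fun S _ => ?_
      rw [Finset.card_filter]
    rw [h1, Nat.cast_sum, ← Finset.card_powersetCard, ← nsmul_eq_mul]
    exact Finset.card_nsmul_le_sum _ _ _ hS
  have hmaps : ∀ w ∈ PP, (w.2 - 1) / (∏ l ∈ w.1, l) ∈ t := by
    intro w hw
    rw [hPP, Finset.mem_filter, Finset.mem_product] at hw
    obtain ⟨⟨hw1, hw2⟩, hd⟩ := hw
    have h2 := hP _ hw2
    have h3 := hpos _ hw1
    obtain ⟨e, he⟩ := hd
    have h4 : (w.2 - 1) / (∏ l ∈ w.1, l) = e := by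
      rw [he]
      exact Nat.mul_div_cancel_left e h3
    rw [h4, ht, Finset.mem_Icc]
    have he1 : 1 ≤ e := by
      rcases Nat.eq_zero_or_pos e with h0 | h0
      · rw [h0, mul_zero] at he
        omega
      · exact h0
    refine ⟨he1, Nat.le_floor ?_⟩
    rw [le_div_iff₀ hYB]
    have h5 : ((∏ l ∈ w.1, l : ℕ) : ℝ) * e ≤ x := by
      have h6 : (∏ l ∈ w.1, l) * e ≤ w.2 := by rw [← he]; omega
      have h7 : (((∏ l ∈ w.1, l) * e : ℕ) : ℝ) ≤ w.2 := by exact_mod_cast h6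
      push_cast at h7 ⊢
      linarith [h2.2]
    calc (e : ℝ) * Y ^ B ≤ e * ((∏ l ∈ w.1, l : ℕ) : ℝ) :=
          mul_le_mul_of_nonneg_left (hge _ hw1) (by positivity)
      _ ≤ x := by rw [mul_comm]; exact h5
  obtain ⟨m, hm, hmb⟩ := Finset.exists_le_card_fiber_of_nsmul_le_card_of_maps_to
    (b := (PP.card : ℝ) / t.card) hmaps htn (by
      rw [nsmul_eq_mul, mul_div_cancel₀ _ htp.ne'])
  rw [ht, Finset.mem_Icc] at hm
  refine ⟨m, hm.1, ?_, (PP.filter fun w => (w.2 - 1) / (∏ l ∈ w.1, l) = m).image Prod.snd, ?_,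
    ?_, ?_⟩
  · have h1 : (m : ℝ) ≤ x / Y ^ B :=
      (Nat.cast_le.2 hm.2).trans (Nat.floor_le (by positivity))
    rwa [le_div_iff₀ hYB] at h1
  · intro p hp
    rw [Finset.mem_image] at hp
    obtain ⟨w, hw, rfl⟩ := hp
    rw [Finset.mem_filter, hPP, Finset.mem_filter, Finset.mem_product] at hw
    exact hw.1.1.2
  · intro p hp
    rw [Finset.mem_image] at hp
    obtain ⟨w, hw, rfl⟩ := hp
    rw [Finset.mem_filter, hPP, Finset.mem_filter, Finset.mem_product] at hw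
    obtain ⟨⟨⟨hw1, hw2⟩, hd⟩, he⟩ := hw
    have h3 := Nat.div_mul_cancel hd
    rw [he] at h3
    rw [← h3]
    refine Nat.mul_dvd_mul_left m ?_
    rw [Finset.mem_powersetCard] at hw1
    exact Finset.prod_dvd_prod_of_subset _ _ _ hw1.1
  · rw [Finset.card_image_of_injOn]
    · refine le_trans ?_ hmb
      rw [div_le_div_iff₀ hx0 htp]
      have h1 : (t.card : ℝ) * Y ^ B ≤ x := by rwa [le_div_iff₀ hYB] at htc
      have h2 : 0 ≤ ((LL.card.choose B : ℕ) : ℝ) * c := by positivity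
      calc ((LL.card.choose B : ℕ) : ℝ) * c * Y ^ B * t.card
          = ((LL.card.choose B : ℕ) : ℝ) * c * (t.card * Y ^ B) := by ring
        _ ≤ ((LL.card.choose B : ℕ) : ℝ) * c * x := mul_le_mul_of_nonneg_left h1 h2
        _ ≤ PP.card * x := mul_le_mul_of_nonneg_right hcard hx0.le
    · intro w hw v hv hwv
      simp only [Finset.coe_filter, Set.mem_ofPred_eq] at hw hv
      obtain ⟨hw, he⟩ := hw
      obtain ⟨hv, hf⟩ := hv
      rw [hPP, Finset.mem_filter, Finset.mem_product] at hw hv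
      obtain ⟨⟨hw1, hw2⟩, hd⟩ := hw
      obtain ⟨⟨hv1, hv2⟩, hd'⟩ := hv
      have h3 := Nat.div_mul_cancel hd
      have h4 := Nat.div_mul_cancel hd'
      rw [he] at h3
      rw [hf] at h4
      have h5 : m * (∏ l ∈ w.1, l) = m * (∏ l ∈ v.1, l) := by
        rw [h3, h4, show w.2 = v.2 from hwv]
      have h6 : (∏ l ∈ w.1, l) = (∏ l ∈ v.1, l) := Nat.eq_of_mul_eq_mul_left hm.1 h5
      rw [Finset.mem_powersetCard] at hw1 hv1
      have h7 := Nat.primeFactors_prod (s := w.1) fun l hl => (hLL l (hw1.1 hl)).1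
      have h8 := Nat.primeFactors_prod (s := v.1) fun l hl => (hLL l (hv1.1 hl)).1
      refine Prod.ext ?_ hwv
      rw [← h7, ← h8, h6]

theorem sqf_prod (S : Finset ℕ) (hS : ∀ p ∈ S, p.Prime) : Squarefree (∏ p ∈ S, p) := by
  classical
  induction S using Finset.induction_on with
  | empty => simp
  | insert a s ha ih =>
    rw [Finset.prod_insert ha]
    have h1 : ∀ p ∈ s, p.Prime := fun p hp => hS p (Finset.mem_insert_of_mem hp)
    have h2 : a.Prime := hS a (Finset.mem_insert_self _ _)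
    refine (Nat.squarefree_mul ?_).2 ⟨h2.squarefree, ih h1⟩
    rw [Nat.coprime_prod_right_iff]
    intro p hp
    rw [Nat.coprime_primes h2 (h1 p hp)]
    rintro rfl
    exact ha hp

theorem pf_POOL (h : T_PRM) : T_POOL := by
  classical
  intro F _ _ _ _ A x₀
  set B : ℕ := 2 * A + 4 with hB
  obtain ⟨c, x₁, hc, H⟩ := h F B
  -- the scale
  have hev : ∀ᶠ j : ℕ in atTop, x₀ ≤ (2 : ℝ) ^ j ∧ x₁ ≤ (2 : ℝ) ^ j ∧
      ((discr F).natAbs : ℝ) + 7 ≤ (2 : ℝ) ^ j ∧ (4 * B + 4 : ℝ) ^ 2 ≤ (2 : ℝ) ^ j ∧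
      2 ^ B * 32 ^ (A + 2) * (B.factorial : ℝ) / c ≤ (2 : ℝ) ^ j ∧
      ((2 : ℝ) ^ j) ^ B ≤ Real.exp ((2 : ℝ) ^ j) := by
    have ht : Tendsto (fun j : ℕ => (2 : ℝ) ^ j) atTop atTop :=
      tendsto_pow_atTop_atTop_of_one_lt (by norm_num)
    have h1 : ∀ᶠ y : ℝ in atTop, y ^ B ≤ Real.exp y := by
      have h2 := (Real.isLittleO_pow_exp_atTop (n := B)).bound (show (0 : ℝ) < 1 by norm_num)
      filter_upwards [h2, eventually_ge_atTop (0 : ℝ)] with y hy hy0
      rw [Real.norm_of_nonneg (by positivity), Real.norm_of_nonneg (by positivity), one_mul] at hy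
      exact hy
    filter_upwards [ht.eventually_ge_atTop x₀, ht.eventually_ge_atTop x₁,
      ht.eventually_ge_atTop (((discr F).natAbs : ℝ) + 7),
      ht.eventually_ge_atTop ((4 * B + 4 : ℝ) ^ 2),
      ht.eventually_ge_atTop (2 ^ B * 32 ^ (A + 2) * (B.factorial : ℝ) / c),
      ht.eventually h1] with j h1 h2 h3 h4 h5 h6
    exact ⟨h1, h2, h3, h4, h5, h6⟩
  obtain ⟨K, hK⟩ := eventually_atTop.1 hev
  obtain ⟨j, hj, hdy⟩ := dyadic K
  obtain ⟨hx₀, hx₁, hdisc, hbig, hcc, hexp⟩ := hK j hj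
  set Y : ℝ := (2 : ℝ) ^ j with hY
  set Z : ℝ := ((2 ^ (j + 1) : ℕ) : ℝ) with hZ
  have hZY : Z = 2 * Y := by
    rw [hZ, hY]
    push_cast
    ring
  have hdn : (0 : ℝ) ≤ ((discr F).natAbs : ℝ) := by positivity
  have hY7 : 7 ≤ Y := by linarith
  set x : ℝ := Real.exp Z with hx
  have hlx : Real.log x = Z := Real.log_exp Z
  have hZx : Z ≤ x := by linarith [Real.add_one_le_exp Z]
  have hx0 : 0 < x := Real.exp_pos Z
  obtain ⟨q₁, hq₁⟩ := H x (by linarith)
  rw [hlx] at hq₁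
  set LL : Finset ℕ := (dy j).erase q₁.minFac with hLL
  have hmem : ∀ l ∈ LL, l.Prime ∧ Y ≤ l ∧ (l : ℝ) ≤ Z ∧ l ≠ q₁.minFac := by
    intro l hl
    rw [hLL, Finset.mem_erase, mem_dy] at hl
    refine ⟨hl.2.2, ?_, ?_, hl.1⟩
    · have : ((2 ^ j : ℕ) : ℝ) ≤ l := by exact_mod_cast hl.2.1.1.le
      push_cast at this
      exact this
    · rw [hZ]
      exact_mod_cast hl.2.1.2
  have hdyc : (4 * B + 4 : ℝ) ≤ (dy j).card := by
    have h1 : (2 : ℝ) ^ j ≤ ((dy j).card : ℝ) ^ 2 := by exact_mod_cast hdy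
    have h2 : (4 * B + 4 : ℝ) ^ 2 ≤ ((dy j).card : ℝ) ^ 2 := hbig.trans h1
    exact (pow_le_pow_iff_left₀ (by positivity) (by positivity) two_ne_zero).1 h2
  have hLLc : (dy j).card ≤ LL.card + 1 := by
    rw [hLL]
    have := Finset.pred_card_le_card_erase (s := dy j) (a := q₁.minFac)
    omega
  have hdyn : 4 * B + 4 ≤ (dy j).card := by exact_mod_cast hdyc
  -- the number of the products
  have hchoose : (Y / 16) ^ (A + 2) / (B.factorial : ℝ) ≤ ((LL.card.choose B : ℕ) : ℝ) := by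
    refine le_trans ?_ (Nat.pow_le_choose (α := ℝ) B LL.card)
    refine div_le_div_of_nonneg_right ?_ (by positivity)
    have h1 : ((dy j).card : ℝ) / 4 ≤ ((LL.card + 1 - B : ℕ) : ℝ) := by
      have h2 : (dy j).card ≤ 4 * (LL.card + 1 - B) := by omega
      have h3 : ((dy j).card : ℝ) ≤ 4 * ((LL.card + 1 - B : ℕ) : ℝ) := by exact_mod_cast h2
      linarith
    have h4 : (2 : ℝ) ^ j ≤ ((dy j).card : ℝ) ^ 2 := by exact_mod_cast hdy
    calc (Y / 16) ^ (A + 2) ≤ ((((dy j).card : ℝ) / 4) ^ 2) ^ (A + 2) := by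
          refine pow_le_pow_left₀ (by positivity) ?_ _
          rw [div_pow]
          linarith
      _ = (((dy j).card : ℝ) / 4) ^ B := by
          rw [← pow_mul, hB]
          ring_nf
      _ ≤ _ := pow_le_pow_left₀ (by positivity) h1 _
  -- the primes
  set P : Finset ℕ := (Finset.Icc 1 ⌊x⌋₊).filter fun p => Spl F p ∧ Real.sqrt x ≤ p with hP
  have hPm : ∀ p ∈ P, 2 ≤ p ∧ (p : ℝ) ≤ x := by
    intro p hp
    rw [hP, Finset.mem_filter, Finset.mem_Icc] at hp
    exact ⟨hp.2.1.1.two_le, (Nat.le_floor_iff hx0.le).1 hp.1.2⟩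
  have hS : ∀ S ∈ Finset.powersetCard B LL, c * x / (Z ^ B * Z) ≤
      ((P.filter fun p => (∏ l ∈ S, l) ∣ p - 1).card : ℝ) := by
    intro S hS
    rw [Finset.mem_powersetCard] at hS
    have hSp : ∀ l ∈ S, l.Prime := fun l hl => (hmem l (hS.1 hl)).1
    have hpos : 0 < ∏ l ∈ S, l := Finset.prod_pos fun l hl => (hSp l hl).pos
    have hpf := Nat.primeFactors_prod hSp
    have hle : ((∏ l ∈ S, l : ℕ) : ℝ) ≤ Z ^ B := by
      push_cast
      rw [← hS.2, ← Finset.prod_const]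
      exact Finset.prod_le_prod (fun _ _ => by positivity) fun l hl => (hmem l (hS.1 hl)).2.2.1
    have h1 := hq₁ (∏ l ∈ S, l) hpos hle ⟨sqf_prod S hSp, ?_⟩ ?_
    · refine le_trans ?_ (h1.trans (le_of_eq ?_))
      · have hpr : (0 : ℝ) < ((∏ l ∈ S, l : ℕ) : ℝ) := by exact_mod_cast hpos
        have hZ0 : 0 < Z := by linarith
        refine div_le_div_of_nonneg_left (by positivity) (by positivity) ?_
        exact mul_le_mul_of_nonneg_right hle hZ0.le
      · congr 2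
        ext p
        simp only [hP, Finset.mem_filter, Finset.mem_Icc]
        tauto
    · intro p hp
      rw [hpf] at hp
      obtain ⟨-, h2, -⟩ := hmem p (hS.1 hp)
      constructor
      · have : (7 : ℝ) ≤ p := by linarith
        exact_mod_cast this
      · intro hdv
        have h3 : p ∣ (discr F).natAbs := Int.natCast_dvd.1 hdv
        have h4 : p ≤ (discr F).natAbs :=
          Nat.le_of_dvd (Int.natAbs_pos.2 (NumberField.discr_ne_zero F)) h3
        have h5 : (p : ℝ) ≤ ((discr F).natAbs : ℝ) := by exact_mod_cast h4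
        linarith
    · rintro ⟨h2, h3⟩
      have h4 : q₁.minFac.Prime := Nat.minFac_prime (by omega)
      have h5 : q₁.minFac ∣ ∏ l ∈ S, l := (Nat.minFac_dvd q₁).trans h3
      have h6 : q₁.minFac ∈ (∏ l ∈ S, l).primeFactors :=
        Nat.mem_primeFactors.2 ⟨h4, h5, hpos.ne'⟩
      rw [hpf] at h6
      exact (hmem _ (hS.1 h6)).2.2.2 rfl
  have hxY : Y ^ B ≤ x := by
    refine hexp.trans (Real.exp_le_exp.2 ?_)
    rw [hZY]
    linarith
  have hZ0 : 0 < Z := by linarith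
  have hY0 : 0 < Y := by linarith
  obtain ⟨m, hm1, hmx, Q, hQP, hQd, hQc⟩ := pigeon B LL P Y x (c * x / (Z ^ B * Z)) hY0
    (fun l hl => ⟨(hmem l hl).1, (hmem l hl).2.1⟩) hPm hxY (by positivity) hS
  have hnum : Z ^ A ≤ (Q.card : ℝ) := by
    refine le_trans ?_ hQc
    have h1 : ((LL.card.choose B : ℕ) : ℝ) * (c * x / (Z ^ B * Z)) * Y ^ B / x =
        ((LL.card.choose B : ℕ) : ℝ) * (c / (2 ^ B * Z)) := by
      rw [hZY, mul_pow]
      field_simp
    rw [h1]
    have h2 : (Y / 16) ^ (A + 2) / (B.factorial : ℝ) * (c / (2 ^ B * Z)) ≤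
        ((LL.card.choose B : ℕ) : ℝ) * (c / (2 ^ B * Z)) :=
      mul_le_mul_of_nonneg_right hchoose (by positivity)
    refine le_trans ?_ h2
    have h3 : Y / 16 = Z / 32 := by rw [hZY]; ring
    rw [h3]
    have hf : (0 : ℝ) < B.factorial := by exact_mod_cast B.factorial_pos
    rw [div_le_iff₀ hc] at hcc
    rw [div_mul_div_comm, le_div_iff₀ (by positivity), div_pow, div_mul_eq_mul_div,
      le_div_iff₀ (by positivity)]
    have h4 : Z ^ (A + 2) = Z ^ A * (Z * Z) := by ring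
    rw [h4]
    have h5 : 2 ^ B * 32 ^ (A + 2) * (B.factorial : ℝ) ≤ Z * c := by
      refine hcc.trans ?_
      exact mul_le_mul_of_nonneg_right (by linarith) hc.le
    calc Z ^ A * ((B.factorial : ℝ) * (2 ^ B * Z)) * 32 ^ (A + 2)
        = Z ^ A * Z * (2 ^ B * 32 ^ (A + 2) * (B.factorial : ℝ)) := by ring
      _ ≤ Z ^ A * Z * (Z * c) := mul_le_mul_of_nonneg_left h5 (by positivity)
      _ = Z ^ A * (Z * Z) * c := by ring
  have hnumn : (2 ^ (j + 1)) ^ A ≤ Q.card := by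
    have : (((2 ^ (j + 1)) ^ A : ℕ) : ℝ) ≤ (Q.card : ℝ) := by
      push_cast
      rw [hZ] at hnum
      push_cast at hnum
      exact hnum
    exact_mod_cast this
  obtain ⟨R, hRQ, hRc⟩ := Finset.exists_subset_card_eq hnumn
  have hRp : ∀ p ∈ R, p ∈ P := fun p hp => hQP (hRQ hp)
  have hRpr : ∀ p ∈ R, p.Prime := by
    intro p hp
    have := hRp p hp
    rw [hP, Finset.mem_filter] at this
    exact this.2.1.1
  have hpf := Nat.primeFactors_prod hRpr
  have hRcr : ((R.card : ℕ) : ℝ) = Z ^ A := by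
    rw [hRc, hZ]
    push_cast
    ring
  refine ⟨x, ∏ p ∈ R, p, by linarith, ⟨⟨sqf_prod R hRpr, ?_⟩, ?_, ?_, ?_, ?_, ?_⟩⟩
  · intro p hp
    rw [hpf] at hp
    have := hRp p hp
    rw [hP, Finset.mem_filter] at this
    exact this.2.1
  · intro p hp
    rw [hpf] at hp
    have := hRp p hp
    rw [hP, Finset.mem_filter] at this
    exact this.2.2
  · intro p hp
    rw [hpf] at hp
    exact (hPm p (hRp p hp)).2
  · refine ⟨m * ∏ l ∈ LL, l, ?_, ?_, ?_⟩
    · exact Nat.one_le_iff_ne_zero.2 (Nat.mul_ne_zero (by omega)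
        (Finset.prod_pos fun l hl => (hmem l hl).1.pos).ne')
    · have h1 : (∏ l ∈ LL, l) ≤ 4 ^ (2 ^ (j + 1)) := by
        refine le_trans ?_ (primorial_le_four_pow (2 ^ (j + 1)))
        rw [primorial_eq_prod_primesLE]
        refine Finset.prod_le_prod_of_subset_of_one_le' ?_ ?_
        · intro l hl
          rw [hLL, Finset.mem_erase, mem_dy] at hl
          exact Nat.mem_primesLE.2 ⟨hl.2.1.2, hl.2.2⟩
        · intro l hl _
          exact (Nat.mem_primesLE.1 hl).2.one_lt.le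
      have h2 : ((∏ l ∈ LL, l : ℕ) : ℝ) ≤ x ^ 2 := by
        have h3 : ((∏ l ∈ LL, l : ℕ) : ℝ) ≤ (4 : ℝ) ^ (2 ^ (j + 1)) := by exact_mod_cast h1
        refine h3.trans ?_
        have h4 : (4 : ℝ) ≤ Real.exp 2 := by
          have := Real.add_one_le_exp (1 : ℝ)
          have h5 : Real.exp 2 = Real.exp 1 * Real.exp 1 := by
            rw [← Real.exp_add]
            norm_num
          rw [h5]
          nlinarith
        calc (4 : ℝ) ^ (2 ^ (j + 1)) ≤ (Real.exp 2) ^ (2 ^ (j + 1)) :=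
              pow_le_pow_left₀ (by norm_num) h4 _
          _ = x ^ 2 := by
              rw [← Real.exp_nat_mul, hx, ← Real.exp_nat_mul]
              congr 1
              rw [hZ]
              push_cast
              ring
      have h5 : (m : ℝ) ≤ x := by
        have h6 : (1 : ℝ) ≤ Y ^ B := one_le_pow₀ (by linarith)
        have h7 : (m : ℝ) * 1 ≤ m * Y ^ B := mul_le_mul_of_nonneg_left h6 (by positivity)
        linarith
      rw [Nat.cast_mul]
      calc (m : ℝ) * ((∏ l ∈ LL, l : ℕ) : ℝ) ≤ x * x ^ 2 :=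
            mul_le_mul h5 h2 (by positivity) hx0.le
        _ = x ^ 3 := by ring
    · intro p hp
      rw [hpf] at hp
      exact hQd p (hRQ hp)
  · rw [hlx, hpf, hRcr]
  · rw [hlx, hpf, hRcr]
    have : 0 ≤ Z ^ A := by positivity
    linarith

end Pool.Agent.H95.SM
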